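import Mathlib
import Pool.Agent.Lib.helper10.Dist

namespace Pool.Agent.Results.MP_fdbc88_co.Counter
open SimpleGraph Finset

/-- G has a neighbor-locating proper colouring with k colours. -/
def HasNL {V : Type} (G : SimpleGraph V) (k : ℕ) : Prop :=
  ∃ c : V → Fin k, (∀ u v, G.Adj u v → c u ≠ c v) ∧
    ∀ u v, u ≠ v → c u = c v → c '' G.neighborSet u ≠ c '' G.neighborSet v

/-- the neighbor-locating chromatic number. -/
noncomputable def chiNL {V : Type} (G : SimpleGraph V) : ℕ := sInf {k | HasNL G k}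

def adj (a b : ℕ) : Bool := (a + 1 == b && decide (b ≤ 24)) || (a == 25 && (b == 1 || b == 2 || b == 3))

def G0 : SimpleGraph (Fin 26) where
  Adj a b := (adj a.val b.val || adj b.val a.val) = true
  symm := ⟨fun a b h => by rwa [Bool.or_comm]⟩
  loopless := ⟨by decide +kernel⟩

instance : DecidableRel G0.Adj := fun a b =>
  inferInstanceAs (Decidable ((adj a.val b.val || adj b.val a.val) = true))

def pos (a : Fin 26) : ℕ := if a.val = 25 then 2 else a.val

def D (a b : Fin 26) : ℕ :=
  if a = b then 0 else if pos a = pos b then 1 else (pos a - pos b) + (pos b - pos a)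

lemma hd (u v : Fin 26) : G0.dist v u = D v u :=
  Pool.Agent.Lib.helper10.Dist.dist_eq G0 D (by decide +kernel) (by decide +kernel)
    (by decide +kernel) u v

lemma conn : G0.Connected :=
  Pool.Agent.Lib.helper10.Dist.conn_of G0 0 (fun v => D v 0) (by decide +kernel)

lemma hdiam : G0.diam = 24 := by
  apply le_antisymm
  · obtain ⟨u, v, h⟩ := G0.exists_dist_eq_diam
    rw [← h, hd]
    revert u v
    suffices ∀ u v, D u v ≤ 24 from fun u v _ => this u v
    decide +kernel
  · have := G0.dist_le_diam (u := 0) (v := 24) (connected_iff_ediam_ne_top.mp conn)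
    rwa [hd] at this

lemma nl4 : HasNL G0 4 := by
  refine ⟨![0,1,2,0,1,0,2,0,2,1,0,3,0,2,3,0,3,1,2,1,2,3,2,3,1,3], by decide +kernel, ?_⟩
  simp only [ne_eq, Set.ext_iff, Set.mem_image, mem_neighborSet]
  decide +kernel

instance : DecidableRel (pathGraph 25).Adj := fun _ _ => decidable_of_iff _ pathGraph_adj.symm

lemma dg : ∀ v, 0 < (pathGraph 25).degree v ∧ (pathGraph 25).degree v ≤ 2 := by decide +kernel

lemma low (k : ℕ) (h : HasNL (pathGraph 25) k) : 4 < k := by
  by_contra hk
  obtain ⟨c, h1, h2⟩ := h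
  have := card_le_card_of_injOn (s := univ)
    (t := univ.filter fun p : Fin k × Finset (Fin k) => p.1 ∉ p.2 ∧ 0 < p.2.card ∧ p.2.card ≤ 2)
    (fun v => (c v, ((pathGraph 25).neighborFinset v).image c)) (fun v _ => ?_) (fun u _ v _ e => ?_)
  · have hk : k ≤ 4 := by omega
    revert this
    clear h1 h2 c
    interval_cases k <;> decide +kernel
  · simp only [coe_filter, mem_univ, true_and, Set.mem_ofPred_eq, mem_image, mem_neighborFinset]
    refine ⟨fun ⟨w, a, e⟩ => h1 v w a e.symm, ?_, card_image_le.trans (dg v).2⟩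
    exact card_pos.mpr ((card_pos.mp (dg v).1).image c)
  · by_contra n
    refine h2 u v n (congrArg Prod.fst e) ?_
    have := congrArg (fun p : Fin k × Finset (Fin k) => (p.2 : Set (Fin k))) e
    simpa using this

theorem result : ∃ (d : ℕ) (V : Type) (_ : Finite V) (G : SimpleGraph V), G.Connected ∧
    G.diam = d ∧ chiNL G < chiNL (pathGraph (d + 1)) :=
  ⟨24, Fin 26, inferInstance, G0, conn, hdiam, (Nat.sInf_le nl4).trans_lt (low _ (Nat.sInf_mem
    (s := {k | HasNL (pathGraph 25) k}) ⟨25, id, fun _ _ h => h.ne, fun _ _ h e => absurd e h⟩))⟩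

end Pool.Agent.Results.MP_fdbc88_co.Counter
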